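import Pool.Agent.H41.Derrw3

set_option autoImplicit false

open MeasureTheory Pool.Agent.H41.Derrw

theorem Pool.Agent.Results.MP_856411_pr.Threshold.result :
    (∀ (V : Type) [DecidableEq V] [Countable V] [MeasurableSpace V] [DiscreteMeasurableSpace V]
      (G : SimpleGraph V) [G.LocallyFinite] (γ : ℝ) (v : V),
      ((∀ x, ∃ y, G.Adj x y) → ∃ P, IsLaw G γ v P) ∧
      (0 < γ → (γ ≤ 1 / 2 ∨ (γ ≤ 1 ∧ ∀ m u, IsCircuit G m u → ∃ i, 3 ≤ G.degree (u i))) →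
        ∀ P, IsLaw G γ v P → P (Trapped G) = 0)) ∧
    ∀ (n : ℕ) (G : SimpleGraph (ZMod (n + 3))) [G.LocallyFinite],
      (∀ a b, G.Adj a b ↔ b = a + 1 ∨ b = a - 1) → ∀ γ : ℝ, 1 / 2 < γ →
        ∀ v P, IsLaw G γ v P → ∀ᵐ w ∂P, w ∈ Trapped G :=
  ⟨fun _ _ _ _ _ _ _ γ v => ⟨fun h => exists_law h γ v, fun h0 h _ hP => zero h0 h hP⟩,
    fun _ _ _ hG _ hγ _ _ hP => cyc_one hG hγ hP⟩
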